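import Pool.Agent.H27.G.R_seed8.TH612.GS.Stm
import Pool.Agent.H27.G.R_seed8.H510R2.Div

set_option autoImplicit false

namespace Pool.Agent.TH753.GS

open Complex MeasureTheory Set
open Pool.Agent.TH612.GS

noncomputable section

/-- number of ordered factorizations into `m` factors in `[1,M]` -/
def rr (m M P : ℕ) : ℕ :=
  ((Fintype.piFinset fun _ : Fin m => Finset.Icc 1 M).filter fun n => ∏ i, n i = P).card

theorem rr_le {m M P : ℕ} (hP : 1 ≤ P) : rr m M P ≤ P.divisors.card ^ m := by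
  classical
  have h : (Fintype.piFinset fun _ : Fin m => Finset.Icc 1 M).filter (fun n => ∏ i, n i = P) ⊆
      Fintype.piFinset fun _ : Fin m => P.divisors := by
    intro n hn
    rw [Finset.mem_filter] at hn
    rw [Fintype.mem_piFinset]
    intro i
    rw [Nat.mem_divisors]
    refine ⟨?_, by omega⟩
    rw [← hn.2]
    exact Finset.dvd_prod_of_mem n (Finset.mem_univ i)
  refine (Finset.card_le_card h).trans ?_
  rw [Fintype.card_piFinset_const]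

theorem prod_mem {m M : ℕ} {n : Fin m → ℕ}
    (hn : n ∈ Fintype.piFinset fun _ : Fin m => Finset.Icc 1 M) :
    ∏ i, n i ∈ Finset.Icc 1 (M ^ m) := by
  rw [Fintype.mem_piFinset] at hn
  rw [Finset.mem_Icc]
  constructor
  · exact Finset.one_le_prod' fun i _ => (Finset.mem_Icc.1 (hn i)).1
  · refine (Finset.prod_le_pow_card _ _ M fun i _ => (Finset.mem_Icc.1 (hn i)).2).trans ?_
    simp

theorem rr_sum (m M : ℕ) : ∑ P ∈ Finset.Icc 1 (M ^ m), rr m M P = M ^ m := by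
  unfold rr
  rw [← Finset.card_eq_sum_card_fiberwise (fun n hn => prod_mem hn), Fintype.card_piFinset_const]
  simp

theorem natCast_prod_cpow {m : ℕ} (n : Fin m → ℕ) (s : ℂ) :
    ∏ i, (n i : ℂ) ^ s = ((∏ i, n i : ℕ) : ℂ) ^ s := by
  induction m with
  | zero => simp
  | succ m ih =>
    rw [Fin.prod_univ_succ, Fin.prod_univ_succ, ih, Nat.cast_mul, natCast_mul_natCast_cpow]

theorem zN_pow (m M : ℕ) (s : ℂ) : (∑ n ∈ Finset.Icc 1 M, (n : ℂ) ^ (-s)) ^ m =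
    ∑ P ∈ Finset.Icc 1 (M ^ m), (rr m M P : ℂ) * (P : ℂ) ^ (-s) := by
  have h1 : (∑ n ∈ Finset.Icc 1 M, (n : ℂ) ^ (-s)) ^ m =
      ∏ _i : Fin m, ∑ n ∈ Finset.Icc 1 M, (n : ℂ) ^ (-s) := by
    rw [Finset.prod_const, Finset.card_univ, Fintype.card_fin]
  rw [h1, Finset.prod_univ_sum]
  simp only [natCast_prod_cpow]
  rw [← Finset.sum_fiberwise_of_maps_to (fun n hn => prod_mem hn)]
  refine Finset.sum_congr rfl fun P _ => ?_
  rw [Finset.sum_congr rfl (g := fun _ => (P : ℂ) ^ (-s)) (fun n hn => by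
    rw [(Finset.mem_filter.1 hn).2]), Finset.sum_const, nsmul_eq_mul]
  rfl

/-- coefficients -/
def cc (m M : ℕ) (v : ℝ) (P : ℕ) : ℂ := (rr m M P : ℂ) * (P : ℂ) ^ (-(3 / 4 + I * v : ℂ))

theorem cc_norm {m M P : ℕ} (v : ℝ) (hP : 1 ≤ P) :
    ‖cc m M v P‖ = rr m M P * (P : ℝ) ^ (-(3 / 4) : ℝ) := by
  unfold cc
  rw [norm_mul, norm_natCast_cpow_of_pos (by omega)]
  simp

theorem cc_sum (m M : ℕ) (v : ℝ) : ∑ P ∈ Finset.Icc 1 (M ^ m), ‖cc m M v P‖ ≤ (M : ℝ) ^ m := by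
  have h : ∑ P ∈ Finset.Icc 1 (M ^ m), ‖cc m M v P‖ ≤
      ∑ P ∈ Finset.Icc 1 (M ^ m), (rr m M P : ℝ) := by
    refine Finset.sum_le_sum fun P hP => ?_
    rw [Finset.mem_Icc] at hP
    rw [cc_norm v hP.1]
    refine mul_le_of_le_one_right (Nat.cast_nonneg _) ?_
    exact Real.rpow_le_one_of_one_le_of_nonpos (by exact_mod_cast hP.1) (by norm_num)
  refine h.trans (le_of_eq ?_)
  exact_mod_cast rr_sum m M

theorem cc_sq {m : ℕ} (hm : 1 ≤ m) : ∃ C : ℝ, 0 < C ∧ ∀ (M N : ℕ) (v : ℝ),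
    ∑ P ∈ Finset.Icc 1 N, ‖cc m M v P‖ ^ 2 ≤ C := by
  have hm' : (0 : ℝ) < m := by exact_mod_cast hm
  obtain ⟨C0, hC0, hC⟩ := Pool.Agent.H510R2.divisor_bound (1 / (8 * m)) (by positivity)
  have hs : Summable (fun n : ℕ => (n : ℝ) ^ (-(5 / 4) : ℝ)) :=
    Real.summable_nat_rpow.2 (by norm_num)
  refine ⟨C0 ^ (2 * m) * (∑' n : ℕ, (n : ℝ) ^ (-(5 / 4) : ℝ) + 1), ?_, ?_⟩
  · have : 0 ≤ ∑' n : ℕ, (n : ℝ) ^ (-(5 / 4) : ℝ) := tsum_nonneg fun n => by positivity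
    positivity
  intro M N v
  have h1 : ∀ P ∈ Finset.Icc 1 N, ‖cc m M v P‖ ^ 2 ≤ C0 ^ (2 * m) * (P : ℝ) ^ (-(5 / 4) : ℝ) := by
    intro P hP
    rw [Finset.mem_Icc] at hP
    have hP0 : (0 : ℝ) < P := by exact_mod_cast hP.1
    rw [cc_norm v hP.1]
    have h2 : (rr m M P : ℝ) ≤ C0 ^ m * (P : ℝ) ^ (1 / 8 : ℝ) := by
      have h3 : (rr m M P : ℝ) ≤ (P.divisors.card : ℝ) ^ m := by exact_mod_cast rr_le hP.1
      refine h3.trans ((pow_le_pow_left₀ (Nat.cast_nonneg _) (hC P hP.1) m).trans (le_of_eq ?_))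
      rw [mul_pow, ← Real.rpow_natCast ((P : ℝ) ^ _), ← Real.rpow_mul hP0.le]
      congr 2
      field_simp
    have h4 : (rr m M P * (P : ℝ) ^ (-(3 / 4) : ℝ)) ^ 2 ≤
        (C0 ^ m * (P : ℝ) ^ (1 / 8 : ℝ) * (P : ℝ) ^ (-(3 / 4) : ℝ)) ^ 2 := by
      refine pow_le_pow_left₀ (by positivity) ?_ 2
      exact mul_le_mul_of_nonneg_right h2 (by positivity)
    refine h4.trans (le_of_eq ?_)
    rw [mul_assoc, ← Real.rpow_add hP0, mul_pow, ← pow_mul, mul_comm m 2,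
      ← Real.rpow_natCast ((P : ℝ) ^ _), ← Real.rpow_mul hP0.le]
    norm_num
  refine (Finset.sum_le_sum h1).trans ?_
  rw [← Finset.mul_sum]
  refine mul_le_mul_of_nonneg_left ?_ (by positivity)
  have h5 := hs.sum_le_tsum (Finset.Icc 1 N) (fun n _ => by positivity)
  linarith

theorem prod_le_sum_pow {ι : Type} [Fintype ι] [Nonempty ι] (x : ι → ℝ) (hx : ∀ i, 0 ≤ x i) :
    ∏ i, x i ≤ ∑ i, x i ^ Fintype.card ι := by
  obtain ⟨i0, hi0⟩ := Finite.exists_max x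
  have h1 : ∏ i, x i ≤ x i0 ^ Fintype.card ι := by
    refine (Finset.prod_le_prod (fun i _ => hx i) (fun i _ => hi0 i)).trans ?_
    rw [Finset.prod_const, Finset.card_univ]
  exact h1.trans (Finset.single_le_sum (f := fun i => x i ^ Fintype.card ι)
    (fun i _ => pow_nonneg (hx i) _) (Finset.mem_univ i0))

variable {k : ℕ}

/-- a tuple with two entries `P` and the others `1` -/
def ee (j l : Fin k) (P : ℕ) : Fin k ⊕ Fin k → ℕ :=
  Sum.elim (fun j' => if j' = j then P else 1) (fun l' => if l' = l then P else 1)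

theorem ee_inl (j l : Fin k) (P : ℕ) : ee j l P (Sum.inl j) = P := by
  simp [ee]

theorem ee_mem (j l : Fin k) {P N : ℕ} (hP : P ∈ Finset.Icc 1 N) : ee j l P ∈ tup k N := by
  rw [Finset.mem_Icc] at hP
  unfold tup
  rw [Fintype.mem_piFinset]
  intro i
  rw [Finset.mem_Icc]
  rcases i with i | i
  · unfold ee
    simp only [Sum.elim_inl]
    split_ifs <;> omega
  · unfold ee
    simp only [Sum.elim_inr]
    split_ifs <;> omega

open Classical in
theorem sum_ee {R : Type} [AddCommMonoid R] (j l : Fin k) (N : ℕ)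
    (F : ℕ → (Fin k ⊕ Fin k → ℕ) → R) :
    ∑ ν ∈ tup k N, (if ν = ee j l (ν (Sum.inl j)) then F (ν (Sum.inl j)) ν else 0) =
      ∑ P ∈ Finset.Icc 1 N, F P (ee j l P) := by
  rw [← Finset.sum_filter]
  refine Finset.sum_nbij' (fun ν => ν (Sum.inl j)) (fun P => ee j l P) ?_ ?_ ?_ ?_ ?_
  · intro ν hν
    rw [Finset.mem_filter] at hν
    exact (Fintype.mem_piFinset.1 hν.1) (Sum.inl j)
  · intro P hP
    rw [Finset.mem_filter]
    refine ⟨ee_mem j l hP, ?_⟩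
    rw [ee_inl]
  · intro ν hν
    rw [Finset.mem_filter] at hν
    exact hν.2.symm
  · intro P _
    exact ee_inl j l P
  · intro ν hν
    rw [Finset.mem_filter] at hν
    show F (ν (Sum.inl j)) ν = F (ν (Sum.inl j)) (ee j l (ν (Sum.inl j)))
    rw [← hν.2]

theorem ch_ee (j l : Fin k) (P : ℕ) (γ : Fin k ⊕ Fin k → ℝ) :
    ch (ee j l P) γ = (P : ℂ) ^ (-(I * γ (Sum.inl j))) * (P : ℂ) ^ (I * γ (Sum.inr l)) := by
  unfold ch ee
  simp only [Sum.elim_inl, Sum.elim_inr]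
  congr 1
  · rw [Finset.prod_eq_single j]
    · rw [if_pos rfl]
    · intro b _ hb
      rw [if_neg hb]
      simp
    · intro h
      exact absurd (Finset.mem_univ j) h
  · rw [Finset.prod_eq_single l]
    · rw [if_pos rfl]
    · intro b _ hb
      rw [if_neg hb]
      simp
    · intro h
      exact absurd (Finset.mem_univ l) h

theorem zN_pow_ch (m M : ℕ) (v : ℝ) (j l : Fin k) (γ : Fin k ⊕ Fin k → ℝ) :
    zN M (1 + (-(1 / 4) + I * v) + I * (γ (Sum.inl j) - γ (Sum.inr l))) ^ m =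
      ∑ P ∈ Finset.Icc 1 (M ^ m), cc m M v P * ch (ee j l P) γ := by
  unfold zN
  rw [zN_pow]
  refine Finset.sum_congr rfl fun P hP => ?_
  rw [Finset.mem_Icc] at hP
  have hP0 : (P : ℂ) ≠ 0 := by
    have : P ≠ 0 := by omega
    exact_mod_cast this
  rw [ch_ee, cc, mul_assoc, ← cpow_add _ _ hP0, ← cpow_add _ _ hP0]
  congr 2
  ring

open Classical in
theorem fl2_ee (hFL : S_FL2) {m : ℕ} (M : ℕ) (hM : 1 ≤ M) (v T : ℝ) (hT : 0 < T) (j l : Fin k) :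
    ∫⁻ γ, ENNReal.ofReal (‖zN M (1 + (-(1 / 4) + I * v) +
        I * (γ (Sum.inl j) - γ (Sum.inr l))) ^ m‖ ^ 2) ∂(mP (Fin k ⊕ Fin k) T) ≤
      ENNReal.ofReal (T ^ (2 * k) * ∑ P ∈ Finset.Icc 1 (M ^ m), ‖cc m M v P‖ ^ 2 +
        2 * (M ^ m : ℕ) * T ^ (2 * k - 1) * (∑ P ∈ Finset.Icc 1 (M ^ m), ‖cc m M v P‖) ^ 2) := by
  have h := hFL k (M ^ m) T (fun ν => if ν = ee j l (ν (Sum.inl j)) then
    cc m M v (ν (Sum.inl j)) else 0) (Nat.one_le_pow _ _ hM) hT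
  have e1 : ∀ γ : Fin k ⊕ Fin k → ℝ, ∑ ν ∈ tup k (M ^ m), (if ν = ee j l (ν (Sum.inl j)) then
      cc m M v (ν (Sum.inl j)) else 0) * ch ν γ =
      zN M (1 + (-(1 / 4) + I * v) + I * (γ (Sum.inl j) - γ (Sum.inr l))) ^ m := by
    intro γ
    rw [zN_pow_ch, ← sum_ee j l (M ^ m) (fun P ν => cc m M v P * ch ν γ)]
    refine Finset.sum_congr rfl fun ν _ => ?_
    rw [ite_mul, zero_mul]
  have e2 : ∑ ν ∈ tup k (M ^ m), ‖(if ν = ee j l (ν (Sum.inl j)) then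
      cc m M v (ν (Sum.inl j)) else 0)‖ ^ 2 = ∑ P ∈ Finset.Icc 1 (M ^ m), ‖cc m M v P‖ ^ 2 := by
    rw [← sum_ee j l (M ^ m) (fun P _ => ‖cc m M v P‖ ^ 2)]
    refine Finset.sum_congr rfl fun ν _ => ?_
    split_ifs <;> simp
  have e3 : ∑ ν ∈ tup k (M ^ m), ‖(if ν = ee j l (ν (Sum.inl j)) then
      cc m M v (ν (Sum.inl j)) else 0)‖ = ∑ P ∈ Finset.Icc 1 (M ^ m), ‖cc m M v P‖ := by
    rw [← sum_ee j l (M ^ m) (fun P _ => ‖cc m M v P‖)]
    refine Finset.sum_congr rfl fun ν _ => ?_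
    split_ifs <;> simp
  simp only [e1, e2, e3] at h
  exact h

theorem meas_zN (m M : ℕ) (v : ℝ) (j l : Fin k) :
    Measurable fun γ : Fin k ⊕ Fin k → ℝ => ENNReal.ofReal (‖zN M (1 + (-(1 / 4) + I * v) +
        I * (γ (Sum.inl j) - γ (Sum.inr l))) ^ m‖ ^ 2) := by
  unfold zN
  refine Measurable.ennreal_ofReal ((Measurable.norm ((Finset.measurable_sum _
    fun n _ => ?_).pow_const m)).pow_const 2)
  refine Measurable.pow measurable_const (Measurable.neg ?_)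
  refine measurable_const.add (measurable_const.mul ?_)
  exact (Complex.measurable_ofReal.comp (measurable_pi_apply _)).sub
    (Complex.measurable_ofReal.comp (measurable_pi_apply _))

theorem t_GL2 (hFL : S_FL2) : S_GL2 := by
  intro k
  rcases Nat.eq_zero_or_pos k with hk | hk
  · -- `k = 0`
    subst hk
    refine ⟨Pool.Agent.TH612.CF.BF 0 (1 / 8) ^ 2 + 1, by positivity, ?_⟩
    intro T M v _ _ hT
    have hT0 : 0 < T := by linarith
    have h1 : ∀ γ : Fin 0 ⊕ Fin 0 → ℝ, ENNReal.ofReal (‖GM M γ (-(1 / 4) + I * v)‖ ^ 2) ≤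
        ENNReal.ofReal (Pool.Agent.TH612.CF.BF 0 (1 / 8) ^ 2 + 1) := by
      intro γ
      apply ENNReal.ofReal_le_ofReal
      have h2 : ‖GM M γ (-(1 / 4) + I * v)‖ ≤ Pool.Agent.TH612.CF.BF 0 (1 / 8) := by
        unfold GM
        simp only [Finset.univ_eq_empty, Finset.prod_empty, mul_one]
        exact Pool.Agent.TH612.CF.FH_le (by norm_num) (fun j => j.elim0)
      have h3 := pow_le_pow_left₀ (norm_nonneg _) h2 2
      linarith
    refine (lintegral_mono h1).trans ?_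
    rw [lintegral_const]
    have h4 : (mP (Fin 0 ⊕ Fin 0) T) univ = 1 := by
      unfold mP
      rw [Measure.pi_univ]
      simp
    rw [h4]
    simp
  -- `k ≥ 1`
  have hne : Nonempty (Fin k × Fin k) := ⟨⟨0, hk⟩, ⟨0, hk⟩⟩
  obtain ⟨m, hm⟩ : ∃ m : ℕ, m = k ^ 2 := ⟨_, rfl⟩
  have hcard : Fintype.card (Fin k × Fin k) = m := by
    rw [Fintype.card_prod, Fintype.card_fin, hm, sq]
  have hm1 : 1 ≤ m := by rw [hm]; exact Nat.one_le_pow _ _ hk
  obtain ⟨C0, hC0, hC⟩ := cc_sq hm1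
  refine ⟨Pool.Agent.TH612.CF.BF k (1 / 8) ^ 2 * (m * (C0 + 1)) + 1, by positivity, ?_⟩
  intro T M v hM hMT hT
  have hT0 : 0 < T := by linarith
  have hpt : ∀ γ : Fin k ⊕ Fin k → ℝ, ENNReal.ofReal (‖GM M γ (-(1 / 4) + I * v)‖ ^ 2) ≤
      ENNReal.ofReal (Pool.Agent.TH612.CF.BF k (1 / 8) ^ 2) * ∑ p : Fin k × Fin k,
        ENNReal.ofReal (‖zN M (1 + (-(1 / 4) + I * v) +
        I * (γ (Sum.inl p.1) - γ (Sum.inr p.2))) ^ m‖ ^ 2) := by
    intro γ
    rw [← ENNReal.ofReal_sum_of_nonneg (fun p _ => by positivity),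
      ← ENNReal.ofReal_mul (by positivity)]
    apply ENNReal.ofReal_le_ofReal
    unfold GM
    rw [norm_mul, mul_pow]
    have h1 : ‖Pool.Agent.TH612.CF.FH (fun j => (γ (Sum.inl j) : ℂ) - I * (-(1 / 4) + I * v) / 2)
        (fun j => (γ (Sum.inr j) : ℂ) + I * (-(1 / 4) + I * v) / 2)‖ ≤
        Pool.Agent.TH612.CF.BF k (1 / 8) := by
      refine Pool.Agent.TH612.CF.FH_le (by norm_num) (fun j => ?_)
      constructor
      · have : (((γ (Sum.inl j) : ℝ) : ℂ) - I * (-(1 / 4) + I * v) / 2).im = 1 / 8 := by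
          simp
          norm_num
        rw [this]
        norm_num
      · have : (((γ (Sum.inr j) : ℝ) : ℂ) + I * (-(1 / 4) + I * v) / 2).im = -(1 / 8) := by
          simp
          norm_num
        rw [this]
        norm_num
    have h2 : ‖∏ j : Fin k, ∏ l : Fin k, zN M (1 + (-(1 / 4) + I * v) +
        I * (γ (Sum.inl j) - γ (Sum.inr l)))‖ ^ 2 ≤ ∑ p : Fin k × Fin k,
        ‖zN M (1 + (-(1 / 4) + I * v) + I * (γ (Sum.inl p.1) - γ (Sum.inr p.2))) ^ m‖ ^ 2 := by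
      have h3 := prod_le_sum_pow (fun p : Fin k × Fin k =>
        ‖zN M (1 + (-(1 / 4) + I * v) + I * (γ (Sum.inl p.1) - γ (Sum.inr p.2)))‖ ^ 2)
        (fun p => by positivity)
      rw [hcard] at h3
      have e1 : ‖∏ j : Fin k, ∏ l : Fin k, zN M (1 + (-(1 / 4) + I * v) +
        I * (γ (Sum.inl j) - γ (Sum.inr l)))‖ ^ 2 = ∏ p : Fin k × Fin k,
        ‖zN M (1 + (-(1 / 4) + I * v) + I * (γ (Sum.inl p.1) - γ (Sum.inr p.2)))‖ ^ 2 := by
        rw [Finset.prod_pow, ← norm_prod, Fintype.prod_prod_type]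
      rw [e1]
      refine h3.trans (le_of_eq (Finset.sum_congr rfl fun p _ => ?_))
      rw [norm_pow, ← pow_mul, ← pow_mul, Nat.mul_comm]
    exact mul_le_mul (pow_le_pow_left₀ (norm_nonneg _) h1 2) h2 (by positivity) (by positivity)
  refine (lintegral_mono hpt).trans ?_
  rw [lintegral_const_mul _ (Finset.measurable_sum _ fun p _ => meas_zN m M v p.1 p.2),
    lintegral_finsetSum _ fun p _ => meas_zN m M v p.1 p.2]
  have hb : ∀ p : Fin k × Fin k, ∫⁻ γ, ENNReal.ofReal (‖zN M (1 + (-(1 / 4) + I * v) +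
        I * (γ (Sum.inl p.1) - γ (Sum.inr p.2))) ^ m‖ ^ 2) ∂(mP (Fin k ⊕ Fin k) T) ≤
      ENNReal.ofReal ((C0 + 1) * T ^ (2 * k)) := by
    intro p
    refine (fl2_ee hFL M hM v T hT0 p.1 p.2).trans (ENNReal.ofReal_le_ofReal ?_)
    have h1 := hC M (M ^ m) v
    have h2 := cc_sum m M v
    have h3 : (∑ P ∈ Finset.Icc 1 (M ^ m), ‖cc m M v P‖) ^ 2 ≤ ((M : ℝ) ^ m) ^ 2 :=
      pow_le_pow_left₀ (Finset.sum_nonneg fun _ _ => norm_nonneg _) h2 2
    have h4 : T ^ (2 * k) * ∑ P ∈ Finset.Icc 1 (M ^ m), ‖cc m M v P‖ ^ 2 ≤ T ^ (2 * k) * C0 :=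
      mul_le_mul_of_nonneg_left h1 (by positivity)
    have h5 : 2 * (M ^ m : ℕ) * T ^ (2 * k - 1) * (∑ P ∈ Finset.Icc 1 (M ^ m),
        ‖cc m M v P‖) ^ 2 ≤ T ^ (2 * k) := by
      have h6 : 2 * ((M ^ m : ℕ) : ℝ) * T ^ (2 * k - 1) * (∑ P ∈ Finset.Icc 1 (M ^ m),
          ‖cc m M v P‖) ^ 2 ≤ 2 * ((M ^ m : ℕ) : ℝ) * T ^ (2 * k - 1) * ((M : ℝ) ^ m) ^ 2 :=
        mul_le_mul_of_nonneg_left h3 (by positivity)
      refine h6.trans ?_
      have h7 : 2 * ((M ^ m : ℕ) : ℝ) * T ^ (2 * k - 1) * ((M : ℝ) ^ m) ^ 2 =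
          (2 * (M : ℝ) ^ (3 * k ^ 2)) * T ^ (2 * k - 1) := by
        rw [← hm]
        push_cast
        ring
      rw [h7]
      have h8 : T ^ (2 * k) = T * T ^ (2 * k - 1) := by
        rw [← pow_succ']
        congr 1
        omega
      rw [h8]
      exact mul_le_mul_of_nonneg_right hMT (by positivity)
    linarith
  refine (mul_le_mul_right (Finset.sum_le_sum fun p _ => hb p) _).trans ?_
  rw [Finset.sum_const, Finset.card_univ, hcard, nsmul_eq_mul, ← ENNReal.ofReal_natCast,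
    ← ENNReal.ofReal_mul (by positivity), ← ENNReal.ofReal_mul (by positivity)]
  apply ENNReal.ofReal_le_ofReal
  have : 0 ≤ T ^ (2 * k) := by positivity
  nlinarith

end

end Pool.Agent.TH753.GS
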